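import Mathlib
import Pool.Agent.Lib.helper22.Benois

namespace Pool.Agent.H.MP_ab6a8b_al

open FreeGroup hiding map_mul map_one map_inv
open Pool.Agent.Lib.Munn Pool.Agent.Lib.Benois
open scoped Pointwise

variable {X Z : Type}

def hat (β : Z → List (X × Bool)) (w : List (Z × Bool)) : List (X × Bool) := w.flatMap fun l => cond l.2 (β l.1) (invRev (β l.1))

variable {β : Z → List (X × Bool)}

theorem hat_app (u v) : hat β (u ++ v) = hat β u ++ hat β v := List.flatMap_append
theorem hat_cons (l v) : hat β (l :: v) = hat β [l] ++ hat β v := hat_app [l] v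

theorem hat_inv (u) : hat β (invRev u) = invRev (hat β u) := by
  induction u with
  | nil => rfl
  | cons l u ih =>
    rw [← List.singleton_append, invRev_append, hat_app, hat_app, invRev_append, ih]
    obtain ⟨z, _ | _⟩ := l <;> simp [hat, invRev, Function.comp_def]

theorem mk_hat (u) : mk (hat β u) = lift (fun z => mk (β z)) (mk u) := by
  induction u with
  | nil => rfl
  | cons l u ih =>
    rw [← List.singleton_append, hat_app, ← mul_mk, ← mul_mk, ih, map_mul]
    obtain ⟨z, _ | _⟩ := l <;> simp [hat]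

theorem T_left (u v : List (X × Bool)) : T u ⊆ T (u ++ v) := T_app u v ▸ Set.subset_union_left

theorem T_red {u v} (h : Red u v) : T (hat β v) ⊆ T (hat β u) := by
  induction h with
  | refl => rfl
  | tail _ k ih =>
    refine .trans ?_ ih
    obtain @⟨L1, L2, z, b⟩ := k
    rw [show L1 ++ (z, b) :: (z, !b) :: L2 = L1 ++ (([(z, b)] ++ invRev [(z, b)]) ++ L2) from rfl]
    simp only [hat_app, hat_inv, T_app _ (hat β L2), T_app (hat β L1), ← mul_mk, ← inv_mk, mul_inv_cancel, one_smul]
    gcongr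
    exact Set.subset_union_right

theorem T_hat [DecidableEq Z] (w) : T (hat β w) = ⋃ s ∈ T w, T (hat β s.toWord) := by
  refine Set.Subset.antisymm ?_ (Set.iUnion₂_subset ?_)
  · induction w using List.reverseRecOn with
    | nil => exact Set.subset_iUnion₂_of_subset 1 (one_T _) le_rfl
    | append_singleton w l ih =>
      rw [hat_app, T_app]
      refine Set.union_subset (ih.trans (Set.biUnion_subset_biUnion_left (T_left ..))) ?_
      obtain e | e := mv isReduced_toWord isReduced_toWord (a := l) (x := (mk w).toWord) (y := (mk (w ++ [l])).toWord)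
        (by simp only [mk_toWord, mul_mk])
      · refine Set.subset_iUnion₂_of_subset _ (mk_T _) ?_
        rw [e, hat_app, T_app, mk_hat (toWord _), mk_toWord, ← mk_hat]
        exact Set.subset_union_right
      · refine Set.subset_iUnion₂_of_subset _ (T_left _ _ (mk_T _)) ?_
        rw [e, hat_app, T_app, mk_hat (toWord _), mk_toWord, ← mk_hat, hat_inv, T_inv, hat_app, ← mul_smul, ← mul_mk (L₁ := hat β w), mul_inv_cancel_right]
        exact Set.subset_union_right
  · rintro _ ⟨k, rfl⟩
    conv_rhs => rw [← List.take_append_drop k w, hat_app]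
    exact (T_red reduce.red).trans (T_left ..)

theorem mu_hat {u v} (h : mu u = mu v) : mu (hat β u) = mu (hat β v) := by
  classical
  simp only [mu, Prod.mk.injEq] at h ⊢
  rw [T_hat u, T_hat v, mk_hat, mk_hat, h.1, h.2]
  exact ⟨rfl, rfl⟩

theorem T_pre' [DecidableEq X] {w x y : List (X × Bool)} (h : IsReduced (x ++ y)) (k : mk (x ++ y) ∈ T w) : mk x ∈ T w := by
  induction y using List.reverseRecOn with
  | nil => simpa using k
  | append_singleton y a ih =>
    rw [← List.append_assoc] at h k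
    exact ih (List.IsChain.left_of_append h) (T_pre h k)

def Crit (β : Z → List (X × Bool)) : Prop :=
  ∀ y, ∃ g ∈ T (hat β [y]), ∀ w, IsReduced w → w.head? ≠ some y → g ∉ T (hat β w)

theorem Crit.inj (h : Crit β) {u v} (e : mu (hat β u) = mu (hat β v)) : mu u = mu v := by
  classical
  have a : ∀ n w, w.length = n → IsReduced w → mk (hat β w) = 1 → w = [] := fun n => by
    induction n using Nat.strong_induction_on with | _ n ih => ?_
    rintro (_ | ⟨y, w⟩) rfl r k
    · rfl
    obtain ⟨g, g1, g2⟩ := h y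
    refine (g2 (invRev (y :: w)) (.of_reduce_eq (by rw [reduce_invRev, r.reduce_eq])) (fun c => ?_)
      (by rw [hat_inv, T_inv, k, inv_one, one_smul, hat_cons]; exact T_left _ _ g1)).elim
    induction w using List.reverseRecOn with
    | nil => simp [invRev, Prod.ext_iff] at c
    | append_singleton w z =>
      obtain rfl : y = (z.1, !z.2) := by simpa [invRev, eq_comm] using c
      obtain rfl := ih _ (by simp) w rfl (List.IsChain.left_of_append r.tail) (by
        rw [show (z.1, !z.2) :: (w ++ [z]) = invRev [z] ++ w ++ [z] from rfl] at k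
        simpa [hat_app, hat_inv, ← mul_mk, ← inv_mk, mul_assoc, inv_mul_eq_one] using k)
      simp [FreeGroup.IsReduced] at r
  have b : ∀ u v, T (hat β u) = T (hat β v) → T u ⊆ T v := fun u v e g k => ?_
  swap
  · skip
    rw [← mk_toWord (x := g)] at k ⊢
    have r := isReduced_toWord (x := g)
    generalize g.toWord = x at k r
    induction x using List.reverseRecOn with
    | nil => exact one_T v
    | append_singleton x y ih =>
      obtain ⟨i, hi⟩ := ih (T_pre r k) (List.IsChain.left_of_append r)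
      obtain ⟨g, g1, g2⟩ := h y
      have c : mk (hat β x) * g ∈ T (hat β v) := by
        rw [← e, T_hat]
        refine Set.mem_biUnion k ?_
        rw [toWord_mk, r.reduce_eq, hat_app, T_app]
        exact .inr ⟨g, g1, rfl⟩
      have d : g ∈ T (hat β (invRev (v.take i) ++ v)) := by
        rw [hat_app, T_app, hat_inv, ← inv_mk, mk_hat, hi, ← mk_hat]
        exact .inr ⟨_, c, inv_mul_cancel_left ..⟩
      rw [T_hat] at d
      obtain ⟨s, s1, s2⟩ := Set.mem_iUnion₂.1 d
      obtain ⟨t, ht⟩ := List.head?_eq_some_iff.1 (by_contra fun c => g2 _ isReduced_toWord c s2)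
      have := T_pre' (x := [y]) (y := t) (by rw [List.singleton_append, ← ht]; exact isReduced_toWord)
        (by rwa [List.singleton_append, ← ht, mk_toWord])
      rw [T_app, T_inv, ← inv_mk, ← Set.smul_set_union, Set.union_eq_self_of_subset_left (by
        conv_rhs => rw [← List.take_append_drop i v]
        exact T_left ..), Set.mem_inv_smul_set_iff, hi] at this
      exact this
  obtain ⟨e1, e2⟩ := Prod.ext_iff.1 e
  refine Prod.ext ((b _ _ e1).antisymm (b _ _ e1.symm)) (inv_mul_eq_one.1 (toWord_eq_nil_iff.1 (a _ _ rfl isReduced_toWord ?_)))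
  change mk _ = mk _ at e2
  rw [mk_hat, mk_toWord, map_mul, map_inv, inv_mul_eq_one]
  exact (mk_hat _).symm.trans (e2.trans (mk_hat _))

theorem crit (hβ : ∀ z, β z ≠ []) (h : ∀ u v, u ≠ [] → v ≠ [] → mu (hat β u) = mu (hat β v) → mu u = mu v) : Crit β := by
  classical
  intro y
  by_contra! c
  have : ∀ S : Set (FreeGroup X), S.Finite → S ⊆ T (hat β [y]) → ∃ e, mk e = 1 ∧ mk [y] ∉ T e ∧ S ⊆ T (hat β e) := fun S f => by
    induction S, f using Set.Finite.induction_on with
    | empty => exact fun _ => ⟨[], rfl, fun k => by simpa using red_eq .singleton .nil (T_nil (X := Z) ▸ k :), by simp⟩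
    | @insert g S _ _ ih =>
      intro k
      obtain ⟨e, e1, e2, e3⟩ := ih ((Set.subset_insert ..).trans k)
      obtain ⟨w, w1, w2, w3⟩ := c g (k (.inl rfl))
      refine ⟨w ++ invRev w ++ e, by simp [← mul_mk, ← inv_mk, e1], ?_, ?_⟩
      · have : T (w ++ invRev w ++ e) = T w ∪ T e := by simp [T_app, T_inv, ← inv_mk, Set.smul_set_union]
        rintro k
        obtain ⟨i, k⟩ := (this ▸ k : _ ∨ _).resolve_right e2
        rw [← List.take_append_drop i w] at w1 w2
        exact w2 (by rw [red_eq (List.IsChain.left_of_append w1) .singleton k]; rfl)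
      · have : T (hat β (w ++ invRev w ++ e)) = T (hat β w) ∪ T (hat β e) := by
          simp [hat_app, hat_inv, T_app, T_inv, ← inv_mk, Set.smul_set_union]
        exact this ▸ Set.insert_subset (.inl w3) (e3.trans Set.subset_union_right)
  obtain ⟨e, e1, e2, e3⟩ := this _ (T_fin _) le_rfl
  refine e2 ((show T _ = T e from congrArg Prod.fst (h ([y] ++ invRev [y] ++ e) e (by simp) ?_ (Prod.ext ?_ ?_))).le
    (T_left _ _ (T_left _ _ (mk_T _))))
  · rintro rfl
    obtain ⟨a, t, k⟩ : ∃ a t, hat β [y] = a :: t := List.exists_cons_of_ne_nil (by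
      obtain ⟨z, _ | _⟩ := y <;> simpa [hat, invRev] using hβ z)
    simpa using red_eq .singleton .nil (T_nil (X := X) ▸ e3 (by rw [k]; exact T_left [a] t (mk_T _)) :)
  · rw [hat_app, hat_app, hat_inv]
    simp [mu, T_app, T_inv, ← inv_mk, Set.smul_set_union, Set.union_eq_self_of_subset_left e3]
  · rw [hat_app, hat_app, hat_inv]
    simp [mu, ← inv_mk, ← mul_mk]

def Gen (L : List (List (X × Bool))) (q : Set (FreeGroup X) × FreeGroup X) : Prop :=
  ∃ l : List (List (X × Bool)), l ≠ [] ∧ (∀ a ∈ l, a ∈ L ++ L.map invRev) ∧ mu l.flatten = q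

theorem mu_mul (u v : List (X × Bool)) : mu (u ++ v) = ((mu u).1 ∪ (mu u).2 • (mu v).1, (mu u).2 * (mu v).2) := Prod.ext (T_app ..) mul_mk.symm
theorem mu_neg (u : List (X × Bool)) : mu (invRev u) = ((mu u).2⁻¹ • (mu u).1, (mu u).2⁻¹) := Prod.ext (T_inv ..) inv_mk.symm

theorem gen_iff {L : List (List (X × Bool))} {q} : Gen L q ↔ ∀ S : Set (Set (FreeGroup X) × FreeGroup X), (∀ w ∈ L, mu w ∈ S) →
    (∀ x ∈ S, ∀ y ∈ S, (x.1 ∪ x.2 • y.1, x.2 * y.2) ∈ S) → (∀ x ∈ S, (x.2⁻¹ • x.1, x.2⁻¹) ∈ S) → q ∈ S := by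
  refine ⟨?_, fun h => h {q | Gen L q} (fun w k => ⟨[w], by simp, by simp [k], by simp⟩) ?_ ?_⟩
  · rintro ⟨l, a, b, rfl⟩ S s1 s2 s3
    have c : ∀ a ∈ L ++ L.map invRev, mu a ∈ S := by
      simpa only [List.forall_mem_append, List.forall_mem_map, mu_neg] using And.intro s1 fun a k => s3 _ (s1 a k)
    induction l with
    | nil => exact (a rfl).elim
    | cons x l ih =>
      obtain rfl | k := eq_or_ne l []
      · simpa using c x (b x (.head _))
      · exact List.flatten_cons ▸ mu_mul .. ▸ s2 _ (c x (b x (.head _))) _ (ih k fun y k => b y (.tail _ k))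
  · rintro _ ⟨l, a, b, rfl⟩ _ ⟨m, -, d, rfl⟩
    exact ⟨l ++ m, by simp [a], List.forall_mem_append.2 ⟨b, d⟩, by rw [List.flatten_append, mu_mul]⟩
  · rintro _ ⟨l, a, b, rfl⟩
    refine ⟨(l.map invRev).reverse, by simpa, fun x k => ?_, ?_⟩
    · obtain ⟨y, i, rfl⟩ := List.mem_map.1 (List.mem_reverse.1 k)
      obtain j | j := List.mem_append.1 (b y i)
      · exact List.mem_append_right _ (List.mem_map_of_mem j)
      · obtain ⟨z, m, rfl⟩ := List.mem_map.1 j
        simp [m]
    · rw [← mu_neg]
      congr 1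
      clear * -
      induction l <;> simp [*]

theorem gen_hat {L : List (List (X × Bool))} (h : ∀ a, a ∈ L ↔ ∃ z, β z = a) {q} : Gen L q ↔ ∃ w, w ≠ [] ∧ mu (hat β w) = q := by
  refine ⟨fun k => gen_iff.1 k {q | ∃ w, w ≠ [] ∧ mu (hat β w) = q} (fun a k => ?_) ?_ ?_, ?_⟩
  · obtain ⟨z, rfl⟩ := (h a).1 k
    exact ⟨[(z, true)], by simp, by simp [hat]⟩
  · rintro _ ⟨u, a, rfl⟩ _ ⟨v, -, rfl⟩
    exact ⟨u ++ v, by simp [a], by rw [hat_app, mu_mul]⟩
  · rintro _ ⟨u, a, rfl⟩
    exact ⟨invRev u, by simpa [invRev], by rw [hat_inv, mu_neg]⟩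
  · rintro ⟨w, a, rfl⟩
    refine ⟨w.map _, by simpa, List.forall_mem_map.2 ?_, rfl⟩
    rintro ⟨z, _ | _⟩ _
    exacts [List.mem_append_right _ (List.mem_map_of_mem ((h _).2 ⟨z, rfl⟩)), List.mem_append_left _ ((h _).2 ⟨z, rfl⟩)]

theorem Gen.trans {L M : List (List (X × Bool))} (h : ∀ a ∈ L, Gen M (mu a)) {q} (k : Gen L q) : Gen M q :=
  gen_iff.2 fun S a b c => gen_iff.1 k S (fun w k => gen_iff.1 (h w k) S a b c) b c

end Pool.Agent.H.MP_ab6a8b_al
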