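import Mathlib
import Pool.Agent.H.MP_ab6a8b_al.A

namespace Pool.Agent.H.MP_ab6a8b_al

open FreeGroup hiding map_mul map_one map_inv
open Pool.Agent.Lib.Munn Pool.Agent.Lib.Benois
open scoped Pointwise

variable {X : Type}

theorem pp_gen [Primcodable X] : PrimrecRel fun (L : List (List (X × Bool))) a => Gen L (mu a) := by
  classical
  have c := (Primrec₂.unpaired'.1 Nat.Primrec.pow).comp (.const 2) (Primrec.succ.comp (Primrec.list_length (α := X × Bool)))
  refine (pp_ex (R := fun (p : List (List (X × Bool)) × List (X × Bool)) l => ¬ l = [] ∧ mu l.flatten = mu p.2)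
    (pr_allW.comp (Primrec.list_append.comp .fst (Primrec.list_map .fst (pr_inv.comp .snd).to₂))
      (Primrec.nat_mul.comp (.const 2) (Primrec.nat_mul.comp (c.comp .snd) (c.comp .snd))))
    ((Primrec.eq.comp .snd (.const [])).not.and (pp_mu'.comp (Primrec.list_flatten.comp .snd) (Primrec.snd.comp .fst)))).of_eq fun ⟨L, a⟩ =>
      ⟨fun ⟨l, h, k⟩ => ⟨l, k.1, (mem_allW.1 h).2, k.2⟩, fun ⟨l, h⟩ => ?_⟩
  let cd : Set (FreeGroup X) → Set (Fin (a.length + 1)) := fun S => {i | mk (a.take i) ∈ S}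
  have ci : ∀ S S', S ⊆ T a → S' ⊆ T a → cd S = cd S' → S = S' := fun S S' h h' e => by
    suffices ∀ g ∈ T a, g ∈ S ↔ g ∈ S' from Set.ext fun g => ⟨fun k => (this g (h k)).1 k, fun k => (this g (h' k)).2 k⟩
    rintro _ ⟨k, rfl⟩
    simpa [cd, ← List.take_take] using Set.ext_iff.1 e ⟨min k a.length, by omega⟩
  obtain ⟨l, h, d⟩ := short (fun l : List (List (X × Bool)) => (l = [], cd (T l.flatten), cd {mk l.flatten}))
    (P := fun l => l ≠ [] ∧ (∀ a ∈ l, a ∈ L ++ L.map invRev) ∧ mu l.flatten = mu a) (l := l) (fun u m v ⟨h1, h2, h3⟩ e => by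
      simp only [List.flatten_append, Prod.mk.injEq] at h3 e ⊢
      have a1 : T (u.flatten ++ m.flatten) ⊆ T a := (T_left ..).trans (congrArg Prod.fst h3).le
      have a2 : T u.flatten ⊆ T a := (T_left ..).trans a1
      refine ⟨fun k => h1 ?_, fun x k => h2 x (by simp at k ⊢; tauto), (mu_app (Prod.ext (ci _ _ a1 a2 e.2.1) (Set.singleton_injective
        (ci _ _ (Set.singleton_subset_iff.2 (a1 (mk_T _))) (Set.singleton_subset_iff.2 (a2 (mk_T _))) e.2.2))) rfl).symm.trans h3⟩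
      rw [List.append_eq_nil_iff] at k ⊢
      exact ⟨cast e.1.symm k.1, k.2⟩) h
  refine ⟨l, mem_allW.2 ⟨d.le.trans (le_of_eq ?_), h.2.1⟩, h.1, h.2.2⟩
  rw [Nat.card_prod, Nat.card_prod, show Set (Fin (a.length + 1)) = (Fin (a.length + 1) → Prop) from rfl, Nat.card_fun]
  simp

def tl {α : Type} (w : List α) : List (List α) := (List.range (w.length + 1)).map (w.drop ·)

theorem mem_tl {α : Type} {v w : List α} : v ∈ tl w ↔ v <:+ w := by
  refine ⟨fun h => ?_, fun ⟨u, h⟩ => List.mem_map.2 ⟨u.length, by simp [← h], by simp [← h]⟩⟩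
  obtain ⟨i, -, rfl⟩ := List.mem_map.1 h
  exact List.drop_suffix ..

theorem pr_tl {α : Type} [Primcodable α] : Primrec (tl : List α → _) :=
  Primrec.list_map (Primrec.list_range.comp (Primrec.succ.comp Primrec.list_length)) (Primrec.list_drop.comp .snd .fst).to₂

abbrev St (X : Type) := Option (List (X × Bool) × Bool) × List (X × Bool)

def Q1 (B : List (List (X × Bool))) : List (St X) := (B ×ˢ [true, false]).flatMap fun l => (tl (hat id [l])).map (some l, ·)

open Classical in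
noncomputable def dl (B : List (List (X × Bool))) (p : List (X × Bool)) : List (St X × Option (X × Bool) × St X) :=
  ((Q1 B ++ (tl p).map (none, ·)).map fun s => (s, s.2.head?, s.1, s.2.tail)) ++ ((Q1 B).map fun s => (s, none, none, p)) ++
    (((B ×ˢ [true, false]) ×ˢ (B ×ˢ [true, false])).filter fun x => ¬ x.2 = (x.1.1, !x.1.2)).map
      fun x => ((some x.1, []), none, some x.2, hat id [x.2])

theorem pr_hat [Primcodable X] : Primrec fun l : List (X × Bool) × Bool => hat id [l] :=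
  (Primrec.cond .snd .fst (pr_inv.comp .fst)).of_eq (by simp [hat])

theorem pr_dl [Primcodable X] : Primrec₂ (dl (X := X)) := by
  classical
  have a : Primrec fun B : List (List (X × Bool)) => B ×ˢ [true, false] := pr_prod.comp .id (.const _)
  have q : Primrec (Q1 (X := X)) := Primrec.list_flatMap a (Primrec.list_map (pr_tl.comp (pr_hat.comp .snd))
    ((Primrec.option_some.comp (Primrec.snd.comp .fst)).pair .snd).to₂).to₂
  exact Primrec.list_append.comp (Primrec.list_append.comp (Primrec.list_map (Primrec.list_append.comp (q.comp .fst)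
    (Primrec.list_map (pr_tl.comp .snd) ((Primrec.const none).pair .snd).to₂)) (Primrec.snd.pair ((Primrec.list_head?.comp
      (Primrec.snd.comp .snd)).pair ((Primrec.fst.comp .snd).pair (Primrec.list_tail.comp (Primrec.snd.comp .snd))))).to₂)
    (Primrec.list_map (q.comp .fst) (Primrec.snd.pair ((Primrec.const none).pair ((Primrec.const none).pair (Primrec.snd.comp .fst)))).to₂))
    (Primrec.list_map (pr_filter ((pr_prod.comp a a).comp .fst) (Primrec.eq.comp (Primrec.snd.comp .snd)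
      ((Primrec.fst.comp (Primrec.fst.comp .snd)).pair (Primrec.not.comp (Primrec.snd.comp (Primrec.fst.comp .snd))))).not)
      (((Primrec.option_some.comp (Primrec.fst.comp .snd)).pair (.const [])).pair ((Primrec.const none).pair
        ((Primrec.option_some.comp (Primrec.snd.comp .snd)).pair (pr_hat.comp (Primrec.snd.comp .snd))))).to₂)

theorem mem_dl {B : List (List (X × Bool))} {p x} : x ∈ dl B p ↔
    ((∃ l v, l.1 ∈ B ∧ v <:+ hat id [l] ∧ (x = ((some l, v), v.head?, some l, v.tail) ∨ x = ((some l, v), none, none, p))) ∨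
      ∃ v, v <:+ p ∧ x = ((none, v), v.head?, none, v.tail)) ∨
      ∃ l l', l.1 ∈ B ∧ l'.1 ∈ B ∧ l' ≠ (l.1, !l.2) ∧ x = ((some l, []), none, some l', hat id [l']) := by
  have a : ∀ l : List (X × Bool) × Bool, l ∈ B ×ˢ [true, false] ↔ l.1 ∈ B := by rintro ⟨_, _ | _⟩ <;> simp
  have q : ∀ s, s ∈ Q1 B ↔ ∃ l v, l.1 ∈ B ∧ v <:+ hat id [l] ∧ s = (some l, v) := fun s => by
    simp only [Q1, List.mem_flatMap, List.mem_map, a, mem_tl, eq_comm, exists_and_left]
  simp only [dl, List.mem_append, List.mem_map, q, mem_tl, List.mem_filter, decide_eq_true_iff]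
  refine or_congr ⟨?_, ?_⟩ ⟨?_, ?_⟩
  · rintro (⟨_, ⟨l, v, b, c, rfl⟩ | ⟨v, b, rfl⟩, rfl⟩ | ⟨_, ⟨l, v, b, c, rfl⟩, rfl⟩)
    exacts [.inl ⟨l, v, b, c, .inl rfl⟩, .inr ⟨v, b, rfl⟩, .inl ⟨l, v, b, c, .inr rfl⟩]
  · rintro (⟨l, v, b, c, rfl | rfl⟩ | ⟨v, b, rfl⟩)
    exacts [.inl ⟨_, .inl ⟨l, v, b, c, rfl⟩, rfl⟩, .inr ⟨_, ⟨l, v, b, c, rfl⟩, rfl⟩, .inl ⟨_, .inr ⟨v, b, rfl⟩, rfl⟩]
  · rintro ⟨⟨l, l'⟩, ⟨b, c⟩, rfl⟩
    exact ⟨l, l', (a l).1 (List.mem_product.1 b).1, (a l').1 (List.mem_product.1 b).2, c, rfl⟩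
  · rintro ⟨l, l', b, c, d, rfl⟩
    exact ⟨(l, l'), ⟨List.mem_product.2 ⟨(a l).2 b, (a l').2 c⟩, d⟩, rfl⟩

theorem aut {B : List (List (X × Bool))} {p} (l : {b // b ∈ B} × Bool) {u} : Pth (dl B p) (some (l.1.1, l.2), []) u (none, []) ↔
    ∃ w k, IsReduced (l :: w) ∧ u = (hat Subtype.val w).take k ++ p := by
  refine ⟨fun h => ?_, ?_⟩
  · suffices ∀ s t, Pth (dl B p) s u t → t = (none, []) → (s.1 = none → u = s.2) ∧ ∀ l : {b // b ∈ B} × Bool, s.1 = some (l.1.1, l.2) →
        ∃ w k, IsReduced (l :: w) ∧ u = (s.2 ++ hat Subtype.val w).take k ++ p from (this _ _ h rfl).2 l rfl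
    clear h l
    intro s t h e
    induction h with
    | base => cases e; simp
    | step a _ ih =>
      obtain ⟨i1, i2⟩ := ih e
      obtain (⟨l, v, b, c, ⟨⟨⟩⟩ | ⟨⟨⟩⟩⟩ | ⟨v, b, ⟨⟩⟩) | ⟨l, l', b, c, d, ⟨⟩⟩ := mem_dl.1 a
      · refine ⟨by simp, fun m k => ?_⟩
        obtain ⟨w, j, r, rfl⟩ := i2 m k
        cases v
        exacts [⟨w, j, r, rfl⟩, ⟨w, j + 1, r, rfl⟩]
      · exact ⟨by simp, fun m _ => ⟨[], 0, .singleton, i1 rfl⟩⟩
      · exact ⟨fun _ => by rw [i1 rfl]; cases v <;> rfl, by simp⟩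
      · refine ⟨by simp, ?_⟩
        rintro m ⟨⟩
        obtain ⟨w, k, r, rfl⟩ := i2 (⟨_, c⟩, l'.2) rfl
        refine ⟨_ :: w, k, isReduced_cons_cons.2 ⟨fun f => by_contra fun g => d (Prod.ext (congrArg Subtype.val f.symm) (Bool.eq_not.2 (Ne.symm g))), r⟩, ?_⟩
        rw [hat_cons (β := Subtype.val)]
        rfl
  · rintro ⟨w, k, r, rfl⟩
    have a : ∀ v, v <:+ p → Pth (dl B p) (none, v) v (none, []) := fun v h => by
      induction v with
      | nil => exact .base _
      | cons x v ih => exact .step (a := some x) (mem_dl.2 (.inl (.inr ⟨_, h, rfl⟩))) (ih ((List.suffix_cons ..).trans h))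
    suffices ∀ v k, v <:+ hat id [(l.1.1, l.2)] → Pth (dl B p) (some (l.1.1, l.2), v) ((v ++ hat Subtype.val w).take k ++ p) (none, []) from
      this [] k List.nil_suffix
    clear k
    induction w generalizing l with
    | nil => ?_
    | cons m w ih => ?_
    all_goals
      intro v k h
      induction v generalizing k with
      | nil => ?_
      | cons x v ih =>
        cases k
        · exact .step (a := none) (mem_dl.2 (.inl (.inl ⟨_, _, l.1.2, h, .inr rfl⟩))) (a p List.suffix_rfl)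
        · exact .step (a := some x) (mem_dl.2 (.inl (.inl ⟨_, _, l.1.2, h, .inl rfl⟩))) (ih _ ((List.suffix_cons ..).trans h))
    · simpa [hat] using Pth.step (a := none) (mem_dl.2 (.inl (.inl ⟨_, _, l.1.2, h, .inr rfl⟩))) (a p List.suffix_rfl)
    · rw [hat_cons]
      exact .step (a := none) (mem_dl.2 (.inr ⟨_, (m.1.1, m.2), l.1.2, m.1.2, fun e => by
        simp only [Prod.mk.injEq] at e
        simpa [e.2] using (isReduced_cons_cons.1 r).1 (Subtype.ext e.1.symm), rfl⟩)) (ih m r.tail _ k List.suffix_rfl)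

theorem pp_crit [Primcodable X] : PrimrecPred fun B : List (List (X × Bool)) => Crit (Subtype.val : {b // b ∈ B} → _) := by
  refine (pp_all (R := fun B l => ∃ i ∈ List.range ((hat id [l]).length + 1),
    ¬ ∃ u, Pth (dl B (invRev ((hat id [l]).take i))) (some (l.1, !l.2), []) u (none, []) ∧ mk u = 1) (pr_prod.comp .id (.const [true, false]))
    (pp_ex (Primrec.list_range.comp (Primrec.succ.comp (Primrec.list_length.comp (pr_hat.comp .snd)))) (pp_dyck.comp ((pr_dl.comp
      (Primrec.fst.comp .fst) (pr_inv.comp (Primrec.list_take.comp .snd (pr_hat.comp (Primrec.snd.comp .fst))))).pair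
      (((Primrec.option_some.comp ((Primrec.fst.comp (Primrec.snd.comp .fst)).pair (Primrec.not.comp (Primrec.snd.comp
        (Primrec.snd.comp .fst))))).pair (.const [])).pair (.const (none, []))))).not)).of_eq fun B => ?_
  have a : ∀ (y : {b // b ∈ B} × Bool) p, (¬ ∃ u, Pth (dl B (invRev p)) (some (y.1.1, !y.2), []) u (none, []) ∧ mk u = 1) ↔
      ∀ w, IsReduced w → w.head? ≠ some y → mk p ∉ T (hat Subtype.val w) := fun y p => by
    have b : ∀ w, IsReduced ((y.1, !y.2) :: w) ↔ IsReduced w ∧ w.head? ≠ some y := by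
      rintro (_ | ⟨⟨a, b⟩, w⟩)
      · simp
      · obtain ⟨c, d⟩ := y
        cases b <;> cases d <;> simp [isReduced_cons_cons, and_comm, eq_comm]
    simp only [aut (y.1, !y.2), b]
    refine ⟨fun h w r c ⟨k, e⟩ => h ⟨_, ⟨w, k, ⟨r, c⟩, rfl⟩, by simp [← mul_mk, ← inv_mk, e]⟩, ?_⟩
    rintro h ⟨_, ⟨w, k, ⟨r, c⟩, rfl⟩, e⟩
    exact h w r c ⟨k, by simpa [← mul_mk, ← inv_mk, mul_inv_eq_one] using e⟩
  refine ⟨fun h y => ?_, fun h ⟨b, s⟩ k => ?_⟩
  · obtain ⟨i, -, k⟩ := h (y.1.1, y.2) (by cases y.2 <;> simpa using y.1.2)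
    exact ⟨_, ⟨i, rfl⟩, (a y _).1 k⟩
  · obtain ⟨_, ⟨i, rfl⟩, k⟩ := h (⟨b, (List.mem_product.1 k).1⟩, s)
    exact ⟨min i (hat id [(b, s)]).length, by simp, (a (⟨b, _⟩, s) _).2 (by rwa [← List.take_take, List.take_length])⟩

end Pool.Agent.H.MP_ab6a8b_al
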